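import Mathlib

namespace Pool.Agent.Results.MP_93a94a_an.Full

open Finset Filter Topology

/-- `p` is the least positive period of `α` -/
def PrimePeriod (α : ℕ → ℝ) (p : ℕ) : Prop :=
  0 < p ∧ (∀ n, α (n + p) = α n) ∧ ∀ q, 0 < q → (∀ n, α (n + q) = α n) → p ≤ q

/-- a positive solution of (E); `u m` stands for `x_{m - (2k+2)}`, so `u (n + 2k + 3) = x_{n+1}`,
`u (n + 2k + 2 - j) = x_{n-j}` and `u (n + k - j) = x_{n-k-2-j}` -/
def Sol (k : ℕ) (α : ℕ → ℝ) (u : ℕ → ℝ) : Prop :=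
  (∀ m, 0 < u m) ∧ ∀ n, u (n + 2 * k + 3) =
    α n / ∏ j ∈ range (k + 1), u (n + 2 * k + 2 - j) + 1 / ∏ j ∈ range (k + 1), u (n + k - j)

noncomputable def ex (k : ℕ) (α : ℕ → ℝ) (m : ℕ) : ℝ :=
  if h : m < 2 * k + 3 then 1 else
    α (m - (2 * k + 3)) / ∏ j ∈ range (k + 1), ex k α (m - 1 - j)
      + 1 / ∏ j ∈ range (k + 1), ex k α (m - (k + 3) - j)
termination_by m
decreasing_by all_goals omega

lemma ex_pos (k : ℕ) (α : ℕ → ℝ) (hα : ∀ n, 0 ≤ α n) (m : ℕ) : 0 < ex k α m := by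
  induction m using Nat.strong_induction_on with
  | _ m ih =>
    rw [ex]
    split_ifs with h
    · exact one_pos
    · have h1 : 0 < ∏ j ∈ range (k + 1), ex k α (m - 1 - j) :=
        prod_pos fun j _ => ih _ (by omega)
      have h2 : 0 < ∏ j ∈ range (k + 1), ex k α (m - (k + 3) - j) :=
        prod_pos fun j _ => ih _ (by omega)
      have := hα (m - (2 * k + 3))
      positivity

lemma ex_sol (k : ℕ) (α : ℕ → ℝ) (hα : ∀ n, 0 ≤ α n) : Sol k α (ex k α) := by
  refine ⟨ex_pos k α hα, fun n => ?_⟩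
  rw [ex, dif_neg (by omega), show n + 2 * k + 3 - (2 * k + 3) = n by omega,
    show n + 2 * k + 3 - 1 = n + 2 * k + 2 by omega, show n + 2 * k + 3 - (k + 3) = n + k by omega]

lemma const (k : ℕ) (α y : ℕ → ℝ) (hy : Sol k α y) (hp : ∀ m, y (m + (k + 2)) = y m) (n : ℕ) :
    α (n + 1) = α n := by
  obtain ⟨h0, h⟩ := hy
  have key : ∀ n, α n + 1 = y (n + k + 1) * ∏ j ∈ range (k + 1), y (n + k - j) := by
    intro n
    have e : ∏ j ∈ range (k + 1), y (n + 2 * k + 2 - j) = ∏ j ∈ range (k + 1), y (n + k - j) := by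
      refine prod_congr rfl fun j hj => ?_
      rw [mem_range] at hj
      rw [← hp (n + k - j)]; congr 1; omega
    have hpos : 0 < ∏ j ∈ range (k + 1), y (n + k - j) := prod_pos fun j _ => h0 _
    have h1 := h n
    rw [e, show n + 2 * k + 3 = n + k + 1 + (k + 2) by omega, hp] at h1
    rw [h1]; field_simp
  have a1 := key n
  have a2 := key (n + 1)
  rw [prod_range_succ] at a1
  rw [prod_range_succ', show n + 1 + k + 1 = n + (k + 2) by omega, hp] at a2
  have e : ∏ j ∈ range k, y (n + 1 + k - (j + 1)) = ∏ j ∈ range k, y (n + k - j) :=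
    prod_congr rfl fun j _ => by congr 1; omega
  rw [e, show n + 1 + k - 0 = n + k + 1 by omega] at a2
  rw [show n + k - k = n by omega] at a1
  linear_combination a2 - a1

theorem result (k p : ℕ) (α : ℕ → ℝ) (hα : ∀ n, 0 ≤ α n) (hp : 2 ≤ p) (hper : PrimePeriod α p) :
    ¬ ∀ x, Sol k α x → ∃ y, Sol k α y ∧ (∀ m, y (m + (k + 2)) = y m) ∧
      Tendsto (fun m => x m - y m) atTop (𝓝 0) := by
  intro h
  obtain ⟨y, hy, hyp, -⟩ := h _ (ex_sol k α hα)
  have := hper.2.2 1 one_pos (const k α y hy hyp)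
  omega

end Pool.Agent.Results.MP_93a94a_an.Full
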